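import Pool.Agent.helper12.KZ.Spec

/-! Row kz:KDP (MP_baa4d7_al): the chains of the kernel of `π` in the case `l = p`. -/

set_option autoImplicit false

namespace Pool.Agent.KZ

open Pool.Agent.helper58.DC Pool.Agent.DI Pool.Agent.TY

theorem KDP_card {Γ : Type} [Group Γ] (G' H Q : Subgroup Γ) (hN : G'.Normal) (hQH : Q ≤ H)
    (hQ : Q ⊓ G' = ⊥) : Nat.card Q ∣ G'.relIndex H := by
  have h0 : (G'.subgroupOf H).Normal := hN.subgroupOf H
  have h1 : (G'.subgroupOf H).relIndex (Q.subgroupOf H) ∣ (G'.subgroupOf H).index :=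
    Subgroup.relIndex_dvd_index_of_normal _ _
  rw [Subgroup.relIndex_subgroupOf hQH] at h1
  have h2 : G'.relIndex Q = Nat.card Q := by
    rw [← Subgroup.inf_relIndex_right, inf_comm, hQ, Subgroup.relIndex_bot_left]
  rw [h2] at h1
  exact h1

theorem KDP_nz_bot {Γ : Type} [Group Γ] : nz (⊥ : Subgroup Γ) = ⊤ := by
  rw [eq_top_iff]
  intro x _
  rw [Subgroup.mem_normalizer_iff]
  intro y
  rw [Subgroup.mem_bot, Subgroup.mem_bot]
  constructor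
  · rintro rfl
    simp
  · intro h
    have h1 : y = x⁻¹ * (x * y * x⁻¹) * x := by group
    rw [h1, h]
    group

theorem KDP (hKAN : KAN_stmt) (hA3 : Pool.Agent.DI.A3_stmt) (hA10 : Pool.Agent.DI.A10_stmt) : KDP_stmt := by
  intro Γ A _ _ _ p _ π G' g hF
  have hp : p.Prime := Fact.out
  have hN : G'.Normal := hF.nor
  have hidx := hF.idx
  have hp0 : 0 < p := hp.pos
  have e1 := hA10 Γ p G' π.ker ⊥ ⊤ g hN IsPGroup.of_bot (bot_inf_eq _)
  rw [bot_sup_eq, inf_eq_right.2 hF.le, KDP_nz_bot, top_inf_eq] at e1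
  have hset : {Q' : Subgroup Γ | ⊥ < Q' ∧ Q' ≤ π.ker ∧ IsPGroup p Q' ∧ Q' ⊓ G' = ⊥} = QH p π G' := by
    ext Q
    unfold QH
    simp only [Set.mem_setOf_eq, bot_lt_iff_ne_bot]
  rw [hset] at e1
  rw [e1]
  congr 1
  refine finsum_congr fun Q => finsum_congr fun hQ => ?_
  obtain ⟨hne, hle, hpg, hQG⟩ := hQ
  have hcen : ∀ x : Γ, ∀ q ∈ Q, x * q * x⁻¹ * q⁻¹ ∈ G' := fun x q hq => hF.cen x q (hle hq)
  obtain ⟨hnz, hQcz, hK⟩ := hKAN Γ p G' Q ⊤ g hN hcen hpg hQG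
  have hcardQ : Nat.card Q = p := by
    have h2 := (KDP_card G' π.ker Q hN hle hQG).trans hidx
    rcases (Nat.dvd_prime hp).1 h2 with h3 | h3
    · exact absurd (Subgroup.card_eq_one.1 h3) hne
    · exact h3
  have e2 := hA10 Γ p G' (π.ker ⊓ cz Q) Q ⊤ g hN hpg hQG
  have hz : ∑ᶠ Q' ∈ {Q' : Subgroup Γ | Q < Q' ∧ Q' ≤ π.ker ⊓ cz Q ∧ IsPGroup p Q' ∧ Q' ⊓ G' = ⊥},
      cSum p (π.ker ⊓ cz Q) Q' (⊤ ⊓ nz Q) g = 0 := by
    apply finsum_mem_eq_zero_of_forall_eq_zero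
    rintro Q' ⟨hlt, hle', -, hQ'G⟩
    exfalso
    have h2 : Nat.card Q' ≤ p := by
      have h3 := (KDP_card G' π.ker Q' hN (hle'.trans inf_le_left) hQ'G).trans hidx
      exact Nat.le_of_dvd hp0 h3
    exact hlt.ne (Subgroup.eq_of_le_of_card_ge hlt.le (by rw [hcardQ]; exact h2))
  rw [hz, sub_zero] at e2
  have hset2 : π.ker ⊓ cz Q ⊓ (Q ⊔ G') = cz Q ⊓ (Q ⊔ G') := by
    rw [inf_assoc]
    exact inf_eq_right.2 (inf_le_right.trans (sup_le hle hF.le))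
  rw [hset2, hK, top_inf_eq] at e2
  rw [hA3 Γ p π.ker Q ⊤ g, hnz, e2]

end Pool.Agent.KZ
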